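import Pool.Agent.R612.CO.Nip

/-!
# The integers with two irrational cyclic orders are NIP

The sets definable in `(ℤ; +, C_α, C_β)` are shown to be unions of classes of equivalence relations
of the following form: two integer tuples `x`, `x'` are equivalent if they are congruent modulo `N`
and if `g x` and `g x'` have the same sign for each of finitely many functions `g`, each one a
rational linear combination of `1` and of functions `fract (q(x) θ)`, with `q` a rational affine
form and with one `θ ∈ {α, β}` for each `g` (`θ = α` suffices if `1, α, β` are linearly dependent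
over `ℚ`). These sets are closed under projections because of the density of the multiples of
`(α, β)` in the torus. Relations of this form cut polynomially many subsets out of `K` points.
-/

set_option autoImplicit false

universe u

namespace Pool.Agent.Results.MP_66c0d0_lc.TwoCyclicOrders

open FirstOrder FirstOrder.Language

/-- `a α`, `b α`, `c α` are in positive cyclic order modulo `1`. -/
def C (α : ℝ) (a b c : ℤ) : Prop :=
  (Int.fract (a * α) < Int.fract (b * α) ∧ Int.fract (b * α) < Int.fract (c * α)) ∨
  (Int.fract (b * α) < Int.fract (c * α) ∧ Int.fract (c * α) < Int.fract (a * α)) ∨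
  (Int.fract (c * α) < Int.fract (a * α) ∧ Int.fract (a * α) < Int.fract (b * α))

/-- One binary function symbol. -/
inductive Fn : ℕ → Type
  | add : Fn 2

/-- Two ternary relation symbols. -/
inductive Rl : ℕ → Type
  | first : Rl 3
  | second : Rl 3

/-- The language with a binary function symbol and two ternary relation symbols. -/
abbrev Lang : FirstOrder.Language.{0, 0} := ⟨Fn, Rl⟩

/-- The structure `(ℤ; +, C_α, C_β)`. -/
abbrev str (α β : ℝ) : Lang.Structure ℤ where
  funMap := fun {_} f v => match f with
    | Fn.add => v 0 + v 1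
  RelMap := fun {_} r v => match r with
    | Rl.first => C α (v 0) (v 1) (v 2)
    | Rl.second => C β (v 0) (v 1) (v 2)

/-- The theory of `(ℤ; +, C_α, C_β)`. -/
def Th (α β : ℝ) : Lang.Theory := @FirstOrder.Language.completeTheory Lang ℤ (str α β)

/-- The formula `φ(x; y)` has the independence property in the theory `T`: some model of `T`
contains tuples `a i`, `i ∈ ℕ`, and `b S`, `S ⊆ ℕ`, such that `φ(a i; b S)` is true iff `i ∈ S`. -/
def HasIP {L : FirstOrder.Language.{0, 0}} (T : L.Theory) {m n : ℕ}
    (φ : L.Formula (Fin m ⊕ Fin n)) : Prop :=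
  ∃ (M : Type u) (_ : L.Structure M) (_ : M ⊨ T) (a : ℕ → Fin m → M) (b : Set ℕ → Fin n → M),
    ∀ (i : ℕ) (S : Set ℕ), φ.Realize (Sum.elim (a i) (b S)) ↔ i ∈ S

/-- `T` is NIP: no formula has the independence property in `T`. -/
def NIP {L : FirstOrder.Language.{0, 0}} (T : L.Theory) : Prop :=
  ∀ (m n : ℕ) (φ : L.Formula (Fin m ⊕ Fin n)), ¬ HasIP.{u} T φ

/-- For all irrational numbers `α`, `β`, the structure `(ℤ; +, C_α, C_β)` is NIP. -/
theorem result (α β : ℝ) (hα : Irrational α) (hβ : Irrational β) : NIP.{u} (Th α β) := by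
  rintro m n φ ⟨M, hM1, hM2, a, b, hab⟩
  let _ : Lang.Structure ℤ := str α β
  have hf : ∀ n (f : Lang.Functions n),
      Pool.Agent.R612.CO.IsIntForm fun x : Fin n → ℤ => Structure.funMap f x := by
    rintro n (_ | _)
    exact (Pool.Agent.R612.CO.isIntForm_var 0).add (Pool.Agent.R612.CO.isIntForm_var 1)
  by_cases hind : ∀ k : Fin 2 → ℤ, ∀ l : ℤ, ∑ i, (k i : ℝ) * (![α, β] i) = l → k = 0
  · refine Pool.Agent.R612.CO.nip (θ := ![α, β]) ?_
      (Pool.Agent.R612.CO.dense_of_indep hind) hf ?_ hM2 φ a b hab
    · intro j
      fin_cases j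
      · exact hα
      · exact hβ
    · rintro n (_ | _)
      · exact Pool.Agent.R612.CO.tame_cyc (θ := ![α, β]) 0 0 1 (by simp)
      · exact Pool.Agent.R612.CO.tame_cyc (θ := ![α, β]) 1 0 1 (by simp)
  · push Not at hind
    obtain ⟨k, l, hkl, hk⟩ := hind
    rw [Fin.sum_univ_two] at hkl
    simp only [Matrix.cons_val_zero, Matrix.cons_val_one] at hkl
    have hk1 : k 1 ≠ 0 := by
      intro h1
      have hk0 : k 0 ≠ 0 := by
        intro h0
        apply hk
        funext i
        fin_cases i
        · exact h0
        · exact h1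
      rw [h1, Int.cast_zero, zero_mul, add_zero] at hkl
      have hk0' : (k 0 : ℝ) ≠ 0 := by exact_mod_cast hk0
      refine hα ⟨(l : ℚ) / k 0, ?_⟩
      push_cast
      rw [div_eq_iff hk0', ← hkl]
      ring
    have hk1' : (k 1 : ℝ) ≠ 0 := by exact_mod_cast hk1
    have hβ' : β = ((l / k 1 : ℚ) : ℝ) + ((-(k 0) / k 1 : ℚ) : ℝ) * α := by
      push_cast
      field_simp
      linarith
    refine Pool.Agent.R612.CO.nip (θ := fun _ : Unit => α) (fun _ => hα)
      (Pool.Agent.R612.CO.dense_unit hα) hf ?_ hM2 φ a b hab
    rintro n (_ | _)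
    · exact Pool.Agent.R612.CO.tame_cyc (θ := fun _ : Unit => α) () 0 1 (by simp)
    · exact Pool.Agent.R612.CO.tame_cyc (θ := fun _ : Unit => α) () _ _ hβ'

end Pool.Agent.Results.MP_66c0d0_lc.TwoCyclicOrders
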